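import Pool.Agent.WR2.StmtsA

/-!
Squad WR2, row AVC: averages along `m ↦ 2 m` and `m ↦ (2 m - 1) / 3`.
-/

set_option autoImplicit false

namespace Pool.Agent.WR2.H86

open Pool.Agent.WIR Pool.Agent.WR2

/-- `z ↦ 2 z` is a bijection of `ZMod (3 ^ N)` -/
lemma sum_two_mul (N : ℕ) (F : ZMod (3 ^ N) → ℝ) : ∑ z, F (2 * z) = ∑ z, F z := by
  have hc : Nat.Coprime 2 (3 ^ N) := Nat.Coprime.pow_right N (by norm_num)
  have h := Equiv.sum_comp (Units.mulLeft (ZMod.unitOfCoprime 2 hc)) F
  rw [← h]
  refine Finset.sum_congr rfl fun z _ => ?_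
  rw [Units.mulLeft_apply, ZMod.coe_unitOfCoprime]
  norm_num

lemma sum_two_mul_sub (N : ℕ) (F : ZMod (3 ^ N) → ℝ) : ∑ z, F (2 * z - 1) = ∑ z, F z := by
  rw [sum_two_mul N (fun z => F (z - 1))]
  exact Equiv.sum_comp (Equiv.subRight (1 : ZMod (3 ^ N))) F

theorem avc (hAVA : AvaStmt) : AvcStmt := by
  obtain ⟨-, hA2, hA3, -⟩ := hAVA
  constructor
  · intro N f hf
    constructor
    · intro m hm
      have h1 : 2 * (m + 3 ^ N) = (2 * m + 3 ^ N) + 3 ^ N := by ring
      have h2 := hf (2 * m + 3 ^ N) (by omega)
      have h3 := hf (2 * m) (by omega)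
      simp only
      rw [h1, h2, h3]
    · obtain ⟨F, hF⟩ := hA3 N f hf
      have e1 : av N (fun m => f (2 * m)) = av N (fun m => (fun z => F (2 * z)) (m : ZMod (3 ^ N))) := by
        unfold av
        congr 1
        refine Finset.sum_congr rfl fun m hm => ?_
        rw [Finset.mem_Icc] at hm
        simp only
        rw [hF (2 * m) (by omega)]
        push_cast
        rfl
      have e2 : av N f = av N (fun m => F (m : ZMod (3 ^ N))) := by
        unfold av
        congr 1
        refine Finset.sum_congr rfl fun m hm => ?_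
        rw [Finset.mem_Icc] at hm
        exact hF m (by omega)
      rw [e1, e2, (hA2 N F).2]
      exact ((hA2 N (fun z => F (2 * z))).2).trans (by rw [sum_two_mul])
  · intro N f hf
    constructor
    · intro m hm
      simp only
      have h1 : 2 * (m + 3 ^ (N + 1)) - 1 = (2 * m - 1) + 3 * (2 * 3 ^ N) := by
        rw [pow_succ]
        omega
      rw [h1]
      by_cases h : 3 ∣ 2 * m - 1
      · have h' : 3 ∣ (2 * m - 1) + 3 * (2 * 3 ^ N) := Dvd.dvd.add h (Dvd.intro _ rfl)
        rw [if_pos h, if_pos h', Nat.add_mul_div_left _ _ (by norm_num)]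
        obtain ⟨y, hy⟩ := h
        have hy0 : 0 < y := by omega
        have hd : (2 * m - 1) / 3 = y := by omega
        rw [hd]
        have e1 : y + 2 * 3 ^ N = (y + 3 ^ N) + 3 ^ N := by ring
        have e2 := hf (y + 3 ^ N) (by omega)
        have e3 := hf y hy0
        rw [e1, e2, e3]
      · have h' : ¬ 3 ∣ (2 * m - 1) + 3 * (2 * 3 ^ N) := by
          intro h2
          exact h ((Nat.dvd_add_left (Dvd.intro _ rfl)).mp h2)
        rw [if_neg h, if_neg h']
    · obtain ⟨F, hF⟩ := hA3 N f hf
      have e0 : ∑ m ∈ Finset.Icc 1 (3 ^ (N + 1)), (if 3 ∣ 2 * m - 1 then f ((2 * m - 1) / 3) else 0)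
          = ∑ j ∈ Finset.Icc 1 (3 ^ N), f (2 * j - 1) := by
        rw [← Finset.sum_filter]
        symm
        refine Finset.sum_nbij (fun j => 3 * j - 1) ?_ ?_ ?_ ?_
        · intro j hj
          rw [Finset.mem_Icc] at hj
          rw [Finset.mem_filter, Finset.mem_Icc, pow_succ]
          refine ⟨⟨by omega, by omega⟩, ⟨2 * j - 1, by omega⟩⟩
        · intro j hj j' hj' h
          rw [Finset.mem_coe, Finset.mem_Icc] at hj hj'
          simp only at h
          omega
        · intro m hm
          rw [Finset.mem_coe, Finset.mem_filter, Finset.mem_Icc, pow_succ] at hm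
          obtain ⟨⟨hm1, hm2⟩, y, hy⟩ := hm
          refine ⟨(m + 1) / 3, ?_, ?_⟩
          · rw [Finset.mem_coe, Finset.mem_Icc]
            omega
          · simp only
            omega
        · intro j hj
          rw [Finset.mem_Icc] at hj
          have : (2 * (3 * j - 1) - 1) / 3 = 2 * j - 1 := by omega
          rw [this]
      have e1 : av N (fun j => f (2 * j - 1))
          = av N (fun m => (fun z => F (2 * z - 1)) (m : ZMod (3 ^ N))) := by
        unfold av
        congr 1
        refine Finset.sum_congr rfl fun m hm => ?_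
        rw [Finset.mem_Icc] at hm
        simp only
        rw [hF (2 * m - 1) (by omega), Nat.cast_sub (by omega)]
        push_cast
        rfl
      have e2 : av N f = av N (fun m => F (m : ZMod (3 ^ N))) := by
        unfold av
        congr 1
        refine Finset.sum_congr rfl fun m hm => ?_
        rw [Finset.mem_Icc] at hm
        exact hF m (by omega)
      have e3 : av N (fun j => f (2 * j - 1)) = av N f := by
        rw [e1, e2, (hA2 N F).2]
        exact ((hA2 N (fun z => F (2 * z - 1))).2).trans (by rw [sum_two_mul_sub])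
      rw [← e3]
      unfold av
      rw [e0, pow_succ, div_div]

end Pool.Agent.WR2.H86
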